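import Pool.Agent.TH742.PR.Dom

set_option autoImplicit false

/-!
Rings with identity satisfying (P): the nilpotent elements form a two-sided ideal, and modulo it
the ring is a subdirect product of domains satisfying (P).
-/

namespace Pool.Agent.Results.MP_5dc4fa_al.UnitalReductionToDomains

open Pool.Agent.TH742.PR

/-- Let `R` be a ring with identity such that for all `x, y` some `n ≥ 2` satisfies
`(x y)^n = x^n y^n`. Then the nilpotent elements of `R` form a two-sided ideal `I`, and each
element outside `I` has a nonzero image under a surjective homomorphism onto a domain `D` that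
again satisfies this condition. -/
theorem result : ∀ (R : Type) [Ring R],
    (∀ x y : R, ∃ n : ℕ, 2 ≤ n ∧ (x * y) ^ n = x ^ n * y ^ n) →
    ∃ I : TwoSidedIdeal R, (∀ x, x ∈ I ↔ IsNilpotent x) ∧
      ∀ x, x ∉ I → ∃ (D : Type) (_ : Ring D) (_ : IsDomain D) (φ : R →+* D),
        Function.Surjective φ ∧
        (∀ x y : D, ∃ n : ℕ, 2 ≤ n ∧ (x * y) ^ n = x ^ n * y ^ n) ∧ φ x ≠ 0 :=
  fun _ _ hP => main hP

end Pool.Agent.Results.MP_5dc4fa_al.UnitalReductionToDomains
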